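import Pool.Agent.Helper40.Nm.Goals

/-! Extensions of complete discrete valuation rings, second half. -/

namespace Pool.Agent.Helper15.Nm

open Pool.Agent.Helper40.Nm IsLocalRing

section Prec

variable {R S : Type*} [CommRing R] [CommRing S] [Algebra R S]

/-- membership in `I • ⊤` in coordinates -/
theorem mem_smul_top_iff {ι : Type*} [Finite ι] (b : Module.Basis ι R S) (I : Ideal R) (x : S) :
    x ∈ (I • ⊤ : Submodule R S) ↔ ∀ i, b.repr x i ∈ I := by
  cases nonempty_fintype ι
  constructor
  · intro hx i
    have h1 : b.coord i x ∈ (I • ⊤ : Submodule R S).map (b.coord i) :=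
      Submodule.mem_map_of_mem hx
    rw [Submodule.map_smul''] at h1
    have h2 : (I • (Submodule.map (b.coord i) ⊤) : Submodule R R) ≤ I :=
      Submodule.smul_le.mpr fun r hr n _ => by
        rw [smul_eq_mul]; exact I.mul_mem_right _ hr
    exact h2 h1
  · intro h
    rw [← b.sum_repr x]
    exact Submodule.sum_mem _ fun i _ => Submodule.smul_mem_smul (h i) trivial

theorem precomplete_of_basis {ι : Type*} [Finite ι] (b : Module.Basis ι R S) (I : Ideal R)
    [IsPrecomplete I R] : IsPrecomplete I S := by
  cases nonempty_fintype ι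
  refine ⟨fun f hf => ?_⟩
  have h1 : ∀ i, ∃ L : R, ∀ n, b.repr (f n) i ≡ L [SMOD (I ^ n • ⊤ : Submodule R R)] := by
    intro i
    refine IsPrecomplete.prec' (I := I) (fun n => b.repr (f n) i) ?_
    intro m n hmn
    have h2 := hf hmn
    rw [SModEq.sub_mem] at h2 ⊢
    have h3 := (mem_smul_top_iff b (I ^ m) _).mp h2 i
    simpa using h3
  choose L hL using h1
  refine ⟨∑ i, L i • b i, fun n => ?_⟩
  rw [SModEq.sub_mem, mem_smul_top_iff b]
  intro i
  have h4 := hL i n
  rw [SModEq.sub_mem] at h4
  have h5 : b.repr (∑ j, L j • b j) i = L i := congrFun (b.repr_sum_self L) i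
  rw [map_sub, Finsupp.sub_apply, h5]
  simpa using h4

end Prec

theorem ext2 : EXT2 := by
  intro R M S E _ _ _ hcomp hac _ _ _ _ _ _ _ _ hsep _ _ _ _ _ _ hicl hfrac hfin hfree
  classical
  have hinj : Function.Injective (algebraMap R S) := by
    have h1 : Function.Injective (algebraMap R E) := by
      rw [IsScalarTower.algebraMap_eq R M E]
      exact (algebraMap M E).injective.comp (IsFractionRing.injective R M)
    rw [IsScalarTower.algebraMap_eq R S E] at h1
    exact Function.Injective.of_comp h1
  have hfaith : FaithfulSMul R S := (faithfulSMul_iff_algebraMap_injective R S).mpr hinj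
  have hint : Algebra.IsIntegral R S := Algebra.IsIntegral.of_finite R S
  have hloc : IsLocalHom (algebraMap R S) := Algebra.IsIntegral.isLocalHom R S
  have hbij : Function.Bijective (algebraMap (ResidueField R) (ResidueField S)) :=
    IsAlgClosed.algebraMap_bijective_of_isIntegral
  have hac' : IsAlgClosed (ResidueField S) :=
    IsAlgClosed.of_ringEquiv (ResidueField R) (ResidueField S) (RingEquiv.ofBijective _ hbij)
  have hres : ∀ s : S, ∃ r : R, s - algebraMap R S r ∈ maximalIdeal S := by
    intro s
    obtain ⟨y, hy⟩ := hbij.2 (residue S s)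
    obtain ⟨r, rfl⟩ := residue_surjective y
    refine ⟨r, ?_⟩
    rw [ResidueField.algebraMap_residue] at hy
    rw [← residue_eq_zero_iff, map_sub, hy, sub_self]
  -- the exponent
  have hm0 : maximalIdeal R ≠ ⊥ := IsDiscreteValuationRing.not_a_field R
  have hmap0 : (maximalIdeal R).map (algebraMap R S) ≠ ⊥ := by
    intro h
    exact hm0 ((Ideal.map_eq_bot_iff_of_injective hinj).mp h)
  obtain ⟨e, he⟩ : ∃ e : ℕ, (maximalIdeal R).map (algebraMap R S) = maximalIdeal S ^ e := by
    obtain ⟨ϖ, hϖ⟩ := IsDiscreteValuationRing.exists_irreducible S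
    obtain ⟨n, hn⟩ := IsDiscreteValuationRing.ideal_eq_span_pow_irreducible hmap0 hϖ
    refine ⟨n, ?_⟩
    rw [hn, hϖ.maximalIdeal_eq, Ideal.span_singleton_pow]
  have hle : (maximalIdeal R).map (algebraMap R S) ≤ maximalIdeal S := by
    have := ((local_hom_TFAE (algebraMap R S)).out 0 2 rfl rfl).mp hloc
    exact this
  have he1 : 1 ≤ e := by
    rcases Nat.eq_zero_or_pos e with h | h
    · rw [h, pow_zero, Ideal.one_eq_top] at he
      rw [he] at hle
      exact absurd (top_le_iff.mp hle) (maximalIdeal.isMaximal S).ne_top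
    · exact h
  have hS0 : maximalIdeal S ≠ ⊥ := IsDiscreteValuationRing.not_a_field S
  have hee : e = Module.finrank M E := by
    have h1 := Ideal.ramificationIdx_mul_inertiaDeg_of_isLocalRing (R := R) (S := S) M E
      (p := maximalIdeal R) hm0
    have h2 : Ideal.ramificationIdx' (maximalIdeal R) (maximalIdeal S) = e := by
      apply Ideal.ramificationIdx'_spec
      · rw [he]
      · rw [he]
        intro h
        have h3 : maximalIdeal S ^ (e + 1) < maximalIdeal S ^ e :=
          Ideal.pow_right_strictAnti _ hS0 (maximalIdeal.isMaximal S).ne_top (Nat.lt_succ_self e)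
        exact absurd h (not_le_of_gt h3)
    have h4 : Ideal.inertiaDeg' (maximalIdeal R) (maximalIdeal S) = 1 := by
      rw [Ideal.inertiaDeg'_algebraMap]
      have h5 : Function.Bijective (algebraMap (R ⧸ maximalIdeal R) (S ⧸ maximalIdeal S)) := hbij
      have h6 : Nontrivial (R ⧸ maximalIdeal R) :=
        Ideal.Quotient.nontrivial_iff.mpr (maximalIdeal.isMaximal R).ne_top
      have h7 := (LinearEquiv.ofBijective
        (Algebra.linearMap (R ⧸ maximalIdeal R) (S ⧸ maximalIdeal S)) h5).finrank_eq
      rw [← h7, Module.finrank_self]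
    rw [h2, h4, mul_one] at h1
    exact h1
  refine ⟨?_, hac', hloc, hres, by rw [he, hee]⟩
  have hpow : ∀ n, maximalIdeal S ^ (e * n) =
      ((maximalIdeal R) ^ n).map (algebraMap R S) := by
    intro n
    rw [Ideal.map_pow, he, pow_mul]
  have hprecR : IsPrecomplete (maximalIdeal R) S :=
    precomplete_of_basis (Module.Free.chooseBasis R S) (maximalIdeal R)
  have hhaus : IsHausdorff (maximalIdeal S) S :=
    IsHausdorff.of_isDomain _ (maximalIdeal.isMaximal S).ne_top
  have hmem : ∀ (n : ℕ) (x : S), x ∈ ((maximalIdeal R) ^ n • ⊤ : Submodule R S) ↔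
      x ∈ maximalIdeal S ^ (e * n) := by
    intro n x
    rw [hpow, Ideal.smul_top_eq_map]
    rfl
  have hprec : IsPrecomplete (maximalIdeal S) S := by
    refine ⟨fun f hf => ?_⟩
    have hf' : ∀ {m n : ℕ}, m ≤ n → f m - f n ∈ maximalIdeal S ^ m := by
      intro m n hmn
      have h := hf hmn
      rw [SModEq.sub_mem] at h
      simpa using h
    obtain ⟨L, hL⟩ := hprecR.prec' (fun n => f (e * n)) (by
      intro m n hmn
      rw [SModEq.sub_mem, hmem]
      exact hf' (Nat.mul_le_mul_left e hmn))
    refine ⟨L, fun n => ?_⟩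
    rw [SModEq.sub_mem]
    have h1 : f n - L = (f n - f (e * n)) + (f (e * n) - L) := by ring
    rw [h1]
    have h2 : f n - f (e * n) ∈ maximalIdeal S ^ n := hf' (Nat.le_mul_of_pos_left n he1)
    have h3 : f (e * n) - L ∈ maximalIdeal S ^ n := by
      have h4 := hL n
      rw [SModEq.sub_mem, hmem] at h4
      exact Ideal.pow_le_pow_right (Nat.le_mul_of_pos_left n he1) h4
    simpa using Ideal.add_mem _ h2 h3
  exact { toIsHausdorff := hhaus, toIsPrecomplete := hprec }

end Pool.Agent.Helper15.Nm
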